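import Mathlib

set_option autoImplicit false

namespace Pool.Agent.H.MP_42c941_an
open MeasureTheory Filter Topology Set ProbabilityTheory BoundedContinuousFunction

abbrev K := ℕ → Bool

lemma cont_meas {C : Set K} (hC : IsClopen C) :
    Continuous fun ν : ProbabilityMeasure K => (ν : Measure K) C := by
  rw [continuous_iff_continuousAt]
  intro ν
  exact ProbabilityMeasure.tendsto_measure_of_null_frontier_of_tendsto' (L := 𝓝 ν)
    (μs := fun x => x) tendsto_id (by rw [hC.frontier_eq]; simp)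

lemma inv_iff (f : C(K, K)) (ν : ProbabilityMeasure K) :
    (ν : Measure K).map f = ν ↔ ∀ φ : K →ᵇ ℝ, ∫ x, φ (f x) ∂(ν : Measure K) = ∫ x, φ x ∂(ν : Measure K) := by
  have hm : ∀ φ : K →ᵇ ℝ, ∫ x, φ x ∂((ν : Measure K).map f) = ∫ x, φ (f x) ∂(ν : Measure K) :=
    fun φ => integral_map f.continuous.measurable.aemeasurable
      φ.continuous.measurable.aestronglyMeasurable
  constructor
  · intro h φ
    rw [← hm, h]
  · intro h
    exact ext_of_forall_integral_eq_of_IsFiniteMeasure fun φ => by rw [hm, h]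

lemma cont_int (f : C(K, K)) (φ : K →ᵇ ℝ) :
    Continuous fun ν : ProbabilityMeasure K => ∫ x, φ (f x) ∂(ν : Measure K) :=
  ProbabilityMeasure.continuous_integral_boundedContinuousFunction (φ.compContinuous f)

lemma closed_inv {G : Type} (a : G → C(K, K)) :
    IsClosed {ν : ProbabilityMeasure K | ∀ g, (ν : Measure K).map (a g) = ν} := by
  simp only [inv_iff, ofPred_forall]
  exact isClosed_iInter fun g => isClosed_iInter fun φ => isClosed_eq (cont_int _ _)
    (ProbabilityMeasure.continuous_integral_boundedContinuousFunction φ)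

lemma cond_inv {f : K → K} (hf : Measurable f) {ν : Measure K} (h : ν.map f = ν) {s : Set K}
    (hs : MeasurableSet s) (he : f ⁻¹' s = s) : (ν[|s]).map f = ν[|s] := by
  ext t ht
  rw [Measure.map_apply hf ht, cond_apply hs, cond_apply hs]
  congr 1
  conv_rhs => rw [← h, Measure.map_apply hf (hs.inter ht), preimage_inter, he]

lemma erg {G : Type} (a : G → C(K, K)) {B : Set K} (hB : IsClopen B)
    (h : ∃ μ : ProbabilityMeasure K, (∀ g, (μ : Measure K).map (a g) = μ) ∧ (μ : Measure K) B = 0) :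
    ∃ ν : ProbabilityMeasure K, (∀ g, (ν : Measure K).map (a g) = ν) ∧ (ν : Measure K) B = 0 ∧
      ∀ s : Set K, MeasurableSet s → (∀ g, a g ⁻¹' s = s) →
        (ν : Measure K) s = 0 ∨ (ν : Measure K) s = 1 := by
  let M : Set (ProbabilityMeasure K) :=
    {ν | ∀ g, (ν : Measure K).map (a g) = ν} ∩ {ν | (ν : Measure K) B = 0}
  have hM : IsCompact M :=
    ((closed_inv a).inter (isClosed_eq (cont_meas hB) continuous_const)).isCompact
  let Φ : ProbabilityMeasure K → (K →ᵇ ℝ) → ℝ := fun ν φ => ∫ x, φ x ∂(ν : Measure K)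
  have hΦ : Continuous Φ := continuous_pi fun φ =>
    ProbabilityMeasure.continuous_integral_boundedContinuousFunction φ
  obtain ⟨_, ⟨ν, hν, rfl⟩, hx⟩ := (hM.image hΦ).extremePoints_nonempty (Nonempty.image Φ h)
  refine ⟨ν, hν.1, hν.2, fun s hs he => ?_⟩
  by_contra hc
  push Not at hc
  have hc' : (ν : Measure K) sᶜ ≠ 0 := fun h0 => hc.2 ((prob_compl_eq_zero_iff hs).1 h0)
  have key : ∀ t : Set K, MeasurableSet t → (∀ g, a g ⁻¹' t = t) → (ν : Measure K) t ≠ 0 →
      ∃ μ ∈ M, (μ : Measure K) = (ν : Measure K)[|t] := fun t ht hi h0 =>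
    ⟨⟨(ν : Measure K)[|t], cond_isProbabilityMeasure h0⟩,
      ⟨fun g => cond_inv (a g).continuous.measurable (hν.1 g) ht (hi g),
        cond_absolutelyContinuous hν.2⟩, rfl⟩
  obtain ⟨μ1, m1, e1⟩ := key s hs he hc.1
  obtain ⟨μ2, m2, e2⟩ := key sᶜ hs.compl (fun g => by rw [preimage_compl, he g]) hc'
  have p1 : 0 < (ν : Measure K).real s := ENNReal.toReal_pos hc.1 (measure_ne_top _ _)
  have p2 : 0 < (ν : Measure K).real sᶜ := ENNReal.toReal_pos hc' (measure_ne_top _ _)
  have hseg : Φ ν ∈ openSegment ℝ (Φ μ1) (Φ μ2) := by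
    refine ⟨_, _, p1, p2, by rw [probReal_compl_eq_one_sub hs]; ring, ?_⟩
    funext φ
    simp only [Φ, Pi.add_apply, Pi.smul_apply, smul_eq_mul, e1, e2, ProbabilityTheory.cond,
      integral_smul_measure, ENNReal.toReal_inv]
    rw [← integral_add_compl hs (φ.integrable (ν : Measure K))]
    have q1 : ((ν : Measure K) s).toReal ≠ 0 := p1.ne'
    have q2 : ((ν : Measure K) sᶜ).toReal ≠ 0 := p2.ne'
    simp only [Measure.real]
    field_simp
  have h1 := hx ⟨μ1, m1, rfl⟩ ⟨μ2, m2, rfl⟩ hseg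
  have h2 : (μ1 : Measure K) = ν :=
    ext_of_forall_integral_eq_of_IsFiniteMeasure fun φ => congrFun h1 φ
  apply hc.2
  rw [← h2, e1]
  exact cond_apply_self hc.1 (measure_ne_top _ _)

lemma kb {G : Type} [Group G] (a : G → C(K, K)) (ha : ∀ g h, a (g * h) = (a g).comp (a h))
    (S : ℕ → Finset G) (hS : ∀ n, (S n).Nonempty)
    (hF : ∀ g, Tendsto (fun n => ((((fun x => g * x) '' (S n : Set G)) \ (S n : Set G)).ncard : ℝ) /
      (S n).card) atTop (𝓝 0))
    {B : Set K} (hB : IsClopen B) (k : ℕ → K) (hk : ∀ n, ∀ g ∈ S n, a g (k n) ∉ B) :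
    ∃ μ : ProbabilityMeasure K, (∀ g, (μ : Measure K).map (a g) = μ) ∧ (μ : Measure K) B = 0 := by
  classical
  have hp : ∀ n, IsProbabilityMeasure
      (((S n).card : ENNReal)⁻¹ • ∑ g ∈ S n, Measure.dirac (a g (k n))) := fun n => ⟨by
    have : ((S n).card : ENNReal) ≠ 0 := by simpa using (hS n).ne_empty
    simp [ENNReal.inv_mul_cancel this]⟩
  let μ : ℕ → ProbabilityMeasure K := fun n => ⟨_, hp n⟩
  have hi : ∀ n (φ : K →ᵇ ℝ), ∫ x, φ x ∂(μ n : Measure K) =
      (∑ g ∈ S n, φ (a g (k n))) / (S n).card := by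
    intro n φ
    show ∫ x, φ x ∂(((S n).card : ENNReal)⁻¹ • ∑ g ∈ S n, Measure.dirac (a g (k n))) = _
    rw [integral_smul_measure, integral_finsetSum_measure fun g _ => φ.integrable _]
    simp [div_eq_inv_mul]
  obtain ⟨ν, -, ψ, hψ, hl⟩ := isCompact_univ.tendsto_subseq (x := μ) fun n => mem_univ _
  refine ⟨ν, fun g => (inv_iff _ _).2 fun φ => ?_, ?_⟩
  · have l1 := ((cont_int (a g) φ).tendsto ν).comp hl
    have l2 := ((ProbabilityMeasure.continuous_integral_boundedContinuousFunction φ).tendsto ν).comp hl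
    have l3 := l1.sub l2
    have l4 := ((hF g).comp hψ.tendsto_atTop).const_mul (2 * ‖φ‖)
    rw [mul_zero] at l4
    have l5 : Tendsto (fun n => ∫ x, φ (a g x) ∂(μ (ψ n) : Measure K) -
        ∫ x, φ x ∂(μ (ψ n) : Measure K)) atTop (𝓝 0) := by
      refine squeeze_zero_norm (fun n => ?_) l4
      have e1 := hi (ψ n) (φ.compContinuous (a g))
      simp only [compContinuous_apply] at e1
      rw [e1, hi, ← sub_div, Function.comp, ← mul_div_assoc, norm_div, Real.norm_natCast]
      gcongr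
      set T := S (ψ n)
      set F : G → ℝ := fun h => φ (a h (k (ψ n)))
      have e2 : ∑ h ∈ T, φ (a g (a h (k (ψ n)))) = ∑ h ∈ T.image (fun x => g * x), F h := by
        rw [Finset.sum_image fun x _ y _ hxy => mul_left_cancel hxy]
        exact Finset.sum_congr rfl fun h _ => by simp [F, ha]
      have e3 : (T.image (fun x => g * x)).card = T.card :=
        Finset.card_image_of_injective _ (mul_right_injective g)
      have e4 := Finset.card_sdiff_comm e3
      have e5 : (((fun x => g * x) '' (T : Set G)) \ (T : Set G)).ncard =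
          (T.image (fun x => g * x) \ T).card := by
        rw [← Set.ncard_coe_finset]; simp
      rw [e2, ← Finset.sum_sdiff_sub_sum_sdiff, e5]
      have b : ∀ A : Finset G, ‖∑ h ∈ A, F h‖ ≤ A.card * ‖φ‖ := fun A =>
        (norm_sum_le _ _).trans (by
          simpa using Finset.sum_le_card_nsmul A (fun h => ‖F h‖) ‖φ‖ fun h _ => φ.norm_coe_le_norm _)
      refine (norm_sub_le _ _).trans ((add_le_add (b _) (b _)).trans ?_)
      rw [← e4]; linarith
    exact sub_eq_zero.1 (tendsto_nhds_unique l3 l5)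
  · have l1 := ((cont_meas hB).tendsto ν).comp hl
    refine tendsto_nhds_unique l1 (tendsto_const_nhds.congr fun n => ?_)
    show 0 = (((S (ψ n)).card : ENNReal)⁻¹ • ∑ g ∈ S (ψ n), Measure.dirac (a g (k (ψ n)))) B
    rw [Measure.smul_apply, Measure.finsetSum_apply, Finset.sum_eq_zero, smul_zero]
    intro g hg
    rw [Measure.dirac_apply' _ hB.isOpen.measurableSet, indicator_of_notMem (hk _ g hg)]

end Pool.Agent.H.MP_42c941_an
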