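import Pool.Agent.Lib.helper18.Brouwer

set_option autoImplicit false

namespace Pool.Agent.H.MP_42c941_an
open Filter Topology Set

theorem br {W : Type} [TopologicalSpace W] [CompactSpace W] [Nonempty W] (j : W → ℕ → Bool)
    (hj : Continuous j) (hi : Function.Injective j) (hp : ∀ w : W, ∀ U ∈ 𝓝 w, ∃ v ∈ U, v ≠ w) :
    Nonempty (W ≃ₜ (ℕ → Bool)) := by
  let f : W → ℝ := fun w => (cantorSetHomeomorphNatToBool.symm (j w) : ℝ)
  have hf : Continuous f :=
    continuous_subtype_val.comp (cantorSetHomeomorphNatToBool.symm.continuous.comp hj)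
  have hfi : Function.Injective f :=
    Subtype.val_injective.comp (cantorSetHomeomorphNatToBool.symm.injective.comp hi)
  have he := (hf.isClosedEmbedding hfi).isEmbedding
  have htd : TotallyDisconnectedSpace W :=
    ⟨isTotallyDisconnected_of_image hj.continuousOn hi
      (isTotallyDisconnected_of_totallyDisconnectedSpace _)⟩
  obtain ⟨e⟩ := Lib.helper18.Brouwer.brouwer (E := Set.range f)
    ⟨⟨(isCompact_range hf).isClosed, preperfect_iff_nhds.2 (by
        rintro _ ⟨w, rfl⟩ U hU
        obtain ⟨w', h1, h2⟩ := hp w _ (hf.continuousAt.preimage_mem_nhds hU)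
        exact ⟨f w', ⟨h1, w', rfl⟩, hfi.ne h2⟩)⟩,
      Set.range_nonempty f, isCompact_range hf, by
        by_contra h
        obtain ⟨x, hx⟩ := Set.nonempty_iff_ne_empty.2 h
        obtain ⟨a, b, h1, h2⟩ := mem_nhds_iff_exists_Ioo_subset.1 (mem_interior_iff_mem_nhds.1 hx)
        have h3 := he.isTotallyDisconnected_range.2 htd _ h2 isPreconnected_Ioo
        exact (Set.Ioo_infinite (h1.1.trans h1.2)).not_finite h3.finite⟩
  exact ⟨he.toHomeomorph.trans e⟩

def val (x : ℕ → Bool) : ℕ → ℕ
  | 0 => 0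
  | m + 1 => val x m + (x m).toNat * 2 ^ m

lemma val_lt (x : ℕ → Bool) (m : ℕ) : val x m < 2 ^ m := by
  induction m with
  | zero => simp [val]
  | succ m ih => rw [val, pow_succ]; cases x m <;> simp <;> omega

lemma val_inj {x y : ℕ → Bool} {m : ℕ} (h : val x m = val y m) : ∀ i < m, x i = y i := by
  induction m with
  | zero => simp
  | succ m ih =>
    have h1 := val_lt x m
    have h2 := val_lt y m
    rw [val, val] at h
    have h3 : x m = y m := by
      revert h; cases x m <;> cases y m <;> simp <;> omega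
    rw [h3] at h
    intro i hi
    rcases Nat.lt_succ_iff_lt_or_eq.1 hi with hi | rfl
    · exact ih (by omega) i hi
    · exact h3

lemma val_zero {x : ℕ → Bool} {m : ℕ} (h : ∀ i < m, x i = false) : val x m = 0 := by
  induction m with
  | zero => rfl
  | succ m ih => rw [val, ih fun i hi => h i (by omega), h m (by omega)]; simp

lemma count (β γ : ℕ → ℕ → Bool) (h0 : ∀ j, γ j 0 = true)
    (h1 : ∀ j i, γ j (i + 1) = (γ j i && β j i)) (h2 : ∀ j i, β (j + 1) i = xor (β j i) (γ j i))
    (w : ℕ → Bool) (N m : ℕ) : ∃ j L, ∀ t ≤ N, ∀ i < m, β (j + t) (L + i) = w i := by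
  have a1 : ∀ j m, val (β (j + 1)) m + (γ j m).toNat * 2 ^ m = val (β j) m + 1 := by
    intro j m
    induction m with
    | zero => simp [val, h0]
    | succ m ih =>
      rw [val, val, h1, h2, pow_succ]
      revert ih
      cases β j m <;> cases γ j m <;> simp <;> omega
  have a2 : ∀ m j, val (β j) m ≡ val (β 0) m + j [MOD 2 ^ m] := by
    intro m j
    induction j with
    | zero => rfl
    | succ j ih =>
      have := ih.add_right 1
      rw [← a1] at this
      unfold Nat.ModEq at this ⊢
      rwa [Nat.add_mul_mod_self_right] at this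
  let x : ℕ → Bool := fun i => if i < N + 1 then false else w (i - (N + 1))
  obtain ⟨j, hj⟩ : ∃ j, val (β j) (N + 1 + m) = val x (N + 1 + m) := by
    refine ⟨2 ^ (N + 1 + m) - val (β 0) (N + 1 + m) + val x (N + 1 + m), ?_⟩
    refine Nat.ModEq.eq_of_lt_of_lt ((a2 _ _).trans ?_) (val_lt _ _) (val_lt _ _)
    rw [← add_assoc, Nat.add_sub_cancel' (val_lt _ _).le]
    simp [Nat.ModEq]
  have a3 := val_inj hj
  have a4 : ∀ t ≤ N, val (β (j + t)) (N + 1) = t ∧ ∀ i, β (j + t) (N + 1 + i) = β j (N + 1 + i) := by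
    intro t
    induction t with
    | zero => exact fun _ => ⟨val_zero fun i hi => by rw [add_zero, a3 i (by omega)]; exact if_pos hi,
        fun _ => rfl⟩
    | succ t ih =>
      intro ht
      obtain ⟨b1, b2⟩ := ih (by omega)
      have b3 := a1 (j + t) (N + 1)
      have b4 : γ (j + t) (N + 1) = false := by
        have := Nat.lt_two_pow_self (n := N + 1)
        revert b3; cases γ (j + t) (N + 1) <;> simp; omega
      have b5 : ∀ i, γ (j + t) (N + 1 + i) = false := by
        intro i
        induction i with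
        | zero => exact b4
        | succ i ih => rw [← add_assoc, h1, ih]; rfl
      refine ⟨by rw [b4] at b3; simp at b3; rw [← add_assoc]; omega, fun i => ?_⟩
      rw [← add_assoc, h2, b5, b2]; simp
  refine ⟨j, N + 1, fun t ht i hi => ?_⟩
  rw [(a4 t ht).2, a3 _ (by omega)]
  exact (if_neg (by omega)).trans (by rw [Nat.add_sub_cancel_left])

abbrev G := Multiplicative (ℤ × ℤ)

noncomputable def box (n : ℕ) : Finset G :=
  ((Finset.Ico (0 : ℤ) (n + 1)) ×ˢ (Finset.Ico (0 : ℤ) (n + 1))).map Multiplicative.ofAdd.toEmbedding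

lemma mem_box {n : ℕ} {g : G} : g ∈ box n ↔
    (0 ≤ g.toAdd.1 ∧ g.toAdd.1 < n + 1) ∧ (0 ≤ g.toAdd.2 ∧ g.toAdd.2 < n + 1) := by
  simp [box, Finset.mem_map_equiv]

lemma card_box (n : ℕ) : (box n).card = (n + 1) * (n + 1) := by
  simp [box]

lemma box_ne (n : ℕ) : (box n).Nonempty := ⟨1, mem_box.2 (by simp)⟩

lemma folner (g : G) : Tendsto (fun n => ((((fun x => g * x) '' (box n : Set G)) \
    (box n : Set G)).ncard : ℝ) / (box n).card) atTop (𝓝 0) := by
  obtain ⟨p, q⟩ := g
  have hb : ∀ n : ℕ, (((fun x => Multiplicative.ofAdd (p, q) * x) '' (box n : Set G)) \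
      (box n : Set G)).ncard ≤ (p.natAbs + q.natAbs) * (n + 1) := by
    intro n
    let E : ℤ → Finset ℤ := fun p => Finset.Ico p 0 ∪ Finset.Ico ((n : ℤ) + 1) (n + 1 + p)
    have hE : ∀ p, (E p).card ≤ p.natAbs := fun p =>
      (Finset.card_union_le _ _).trans (by simp only [Int.card_Ico]; omega)
    let A : Finset G := ((E p ×ˢ Finset.Ico q (q + (n + 1))) ∪
      (Finset.Ico p (p + (n + 1)) ×ˢ E q)).map Multiplicative.ofAdd.toEmbedding
    have hA : A.card ≤ (p.natAbs + q.natAbs) * (n + 1) := by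
      rw [Finset.card_map]
      refine (Finset.card_union_le _ _).trans ?_
      rw [Finset.card_product, Finset.card_product, Int.card_Ico, Int.card_Ico]
      have e : ∀ r : ℤ, (r + (n + 1) - r).toNat = n + 1 := fun r => by omega
      rw [e, e]
      nlinarith [hE p, hE q]
    refine le_trans (Set.ncard_le_ncard (t := (A : Set G)) ?_ A.finite_toSet) (by simpa using hA)
    rintro _ ⟨⟨x, hx, rfl⟩, h2⟩
    rw [Finset.mem_coe, mem_box] at hx h2
    simp only [A, E, Finset.mem_coe, Finset.mem_map_equiv, Finset.mem_union, Finset.mem_product,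
      Finset.mem_Ico]
    simp only [toAdd_mul, toAdd_ofAdd, Prod.fst_add, Prod.snd_add, Multiplicative.ofAdd_symm_eq] at h2 ⊢
    omega
  have hl := (tendsto_one_div_add_atTop_nhds_zero_nat (𝕜 := ℝ)).const_mul
    ((p.natAbs : ℝ) + q.natAbs)
  rw [mul_zero] at hl
  refine squeeze_zero (fun n => by positivity) (fun n => ?_) hl
  rw [card_box, div_le_iff₀ (by positivity)]
  refine le_trans (Nat.cast_le.2 (hb n)) (le_of_eq ?_)
  push_cast
  field_simp

end Pool.Agent.H.MP_42c941_an
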