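import Pool.Agent.H.MP_42c941_an.A
import Pool.Agent.H.MP_42c941_an.B

set_option autoImplicit false

namespace Pool.Agent.H.MP_42c941_an
open MeasureTheory Filter Topology Set

abbrev D := Bool × Bool × Bool × Bool

def RT (x y : D) : Prop := x.2.2.1 = true → y.2.2.1 = true ∧ y.2.1 = (x.2.1 && x.1)

def RU (x y : D) : Prop := (x.2.2.2 = true → y.2.2.2 = true ∧ x.2.1 = true ∧ x.2.2.1 = true) ∧
  (x.2.2.1 = true → y.2.2.1 = true ∧ y.1 = xor x.1 x.2.1)

abbrev T : G := Multiplicative.ofAdd (1, 0)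
abbrev U : G := Multiplicative.ofAdd (0, 1)

abbrev Act := {a : G → C(K, K) // a 1 = ContinuousMap.id K ∧ ∀ g h : G, a (g * h) = (a g).comp (a h)}

def carry (β : ℕ → Bool) : ℕ → Bool
  | 0 => true
  | i + 1 => carry β i && β i

def row : ℕ → ℕ → Bool
  | 0 => fun _ => false
  | j + 1 => fun i => xor (row j i) (carry (row j) i)

def dd (y : (ℤ × ℤ) × ℕ → Bool) (p : ℤ × ℤ) : D := (y (p, 0), y (p, 1), y (p, 2), y (p, 3))

def W : Set ((ℤ × ℤ) × ℕ → Bool) :=
  {y | ∀ p, RT (dd y p) (dd y (p + (1, 0))) ∧ RU (dd y p) (dd y (p + (0, 1)))}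

lemma cont_dd (p : ℤ × ℤ) : Continuous fun y => dd y p := by unfold dd; fun_prop

lemma closed_W : IsClosed W := by
  unfold W
  rw [ofPred_forall]
  refine isClosed_iInter fun p => IsClosed.inter ?_ ?_
  · exact (isClosed_discrete {z : D × D | RT z.1 z.2}).preimage ((cont_dd p).prodMk (cont_dd _))
  · exact (isClosed_discrete {z : D × D | RU z.1 z.2}).preimage ((cont_dd p).prodMk (cont_dd _))

def seed (z : (ℤ × ℤ) × ℕ) : Bool :=
  if z.2 = 0 then row z.1.2.toNat z.1.1.toNat else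
  if z.2 = 1 then carry (row z.1.2.toNat) z.1.1.toNat else
  if z.2 = 2 then decide (0 ≤ z.1.1 ∧ 0 ≤ z.1.2) else decide (z.1.1 = 0 ∧ 0 ≤ z.1.2)

lemma seed_mem : seed ∈ W := by
  rintro ⟨i, j⟩
  simp only [RT, RU, dd, seed]
  simp only [Prod.mk_add_mk, add_zero, if_true, OfNat.ofNat_ne_zero, OfNat.ofNat_ne_one, one_ne_zero,
    if_false, decide_eq_true_eq, show (3 : ℕ) ≠ 2 by omega]
  refine ⟨fun h => ⟨by omega, ?_⟩, fun h => ⟨by omega, ?_, by omega⟩, fun h => ⟨by omega, ?_⟩⟩
  · rw [show (i + 1).toNat = i.toNat + 1 by omega, carry]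
  · rw [h.1]; rfl
  · rw [show (j + 1).toNat = j.toNat + 1 by omega, row]

def sh (g : G) : C(W, W) where
  toFun y := ⟨fun z => y.1 (z.1 + g.toAdd, z.2), fun p => by
    have := y.2 (p + g.toAdd)
    simp only [dd] at this ⊢
    rwa [add_right_comm p g.toAdd, add_right_comm p g.toAdd] at this⟩
  continuous_toFun := continuous_induced_rng.2 (continuous_pi fun z : (ℤ × ℤ) × ℕ =>
    (continuous_apply (z.1 + g.toAdd, z.2)).comp continuous_subtype_val)

lemma model : ∃ (a : Act) (d : K → D) (k : K), Continuous d ∧ (d k).2.2.2 = true ∧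
    (∀ k, RT (d k) (d (a.1 T k))) ∧ ∀ k, RU (d k) (d (a.1 U k)) := by
  have : CompactSpace W := isCompact_iff_compactSpace.1 closed_W.isCompact
  have : Nonempty W := ⟨⟨seed, seed_mem⟩⟩
  obtain ⟨c⟩ : Nonempty (ℕ ≃ (ℤ × ℤ) × ℕ) := inferInstance
  obtain ⟨e⟩ := br (W := W) (fun w n => w.1 (c n))
    (continuous_pi fun _ => (continuous_apply _).comp continuous_subtype_val)
    (fun x y h => Subtype.ext (funext fun z => by simpa using congrFun h (c.symm z))) (by
      intro w V hV
      let v : ℕ → W := fun n => ⟨Function.update w.1 (0, n + 4) (!w.1 (0, n + 4)), fun p => by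
        have := w.2 p
        simp only [dd] at this ⊢
        simpa [Function.update_apply] using this⟩
      have hv : Tendsto v atTop (𝓝 w) := by
        rw [tendsto_subtype_rng, tendsto_pi_nhds]
        intro z
        refine tendsto_const_nhds.congr' ?_
        filter_upwards [eventually_ge_atTop z.2] with n hn
        exact (Function.update_of_ne (fun h => by have := congrArg Prod.snd h; simp at this; omega)
          _ _).symm
      obtain ⟨n, hn⟩ := (hv.eventually hV).exists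
      refine ⟨v n, hn, fun h => ?_⟩
      have := congrFun (congrArg Subtype.val h) (0, n + 4)
      simp [v] at this)
  refine ⟨⟨fun g => (e : C(W, K)).comp ((sh g).comp (e.symm : C(K, W))), ?_, ?_⟩,
    fun k => dd (e.symm k).1 0, e ⟨seed, seed_mem⟩,
    (cont_dd 0).comp (continuous_subtype_val.comp e.symm.continuous), ?_, fun k => ?_, fun k => ?_⟩
  · ext1 k
    have : sh 1 (e.symm k) = e.symm k := Subtype.ext (funext fun z => by simp [sh])
    simp [this]
  · intro g h
    ext1 k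
    have : sh (g * h) (e.symm k) = sh g (sh h (e.symm k)) :=
      Subtype.ext (funext fun z => by simp [sh, add_assoc])
    simp [this]
  · simp [dd, seed]
  · simpa [sh, dd] using ((e.symm k).2 0).1
  · simpa [sh, dd] using ((e.symm k).2 0).2

lemma open_R {d : K → D} (hd : Continuous d) (R : D → D → Prop) (g : G) :
    IsOpen {a : Act | ∀ k, R (d k) (d (a.1 g k))} := by
  have : {a : Act | ∀ k, R (d k) (d (a.1 g k))} = ⋂ x : D, (fun a : Act => a.1 g) ⁻¹'
      {f : C(K, K) | MapsTo f (d ⁻¹' {x}) (d ⁻¹' {y | R x y})} := by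
    ext a
    simp only [mem_ofPred_eq, mem_iInter, mem_preimage]
    exact ⟨fun h x k hk => by have := h k; rw [show d k = x from hk] at this; exact this,
      fun h k => h (d k) rfl⟩
  rw [this]
  exact isOpen_iInter_of_finite fun x => (ContinuousMap.isOpen_setOfPred_mapsTo
    ((isClosed_discrete _).preimage hd).isCompact ((isOpen_discrete _).preimage hd)).preimage
    ((continuous_apply g).comp continuous_subtype_val)

lemma cm {X Y : Type} [TopologicalSpace X] [CompactSpace X] [TopologicalSpace Y]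
    [TopologicalSpace.IsCompletelyMetrizableSpace Y] :
    TopologicalSpace.IsCompletelyMetrizableSpace C(X, Y) := by
  let := TopologicalSpace.upgradeIsCompletelyMetrizable Y
  infer_instance

instance : Countable G := inferInstanceAs (Countable (ℤ × ℤ))

lemma baire : BaireSpace Act := by
  have : TopologicalSpace.IsCompletelyMetrizableSpace C(K, K) := cm
  have hc : IsClosed {a : G → C(K, K) |
      a 1 = ContinuousMap.id K ∧ ∀ g h : G, a (g * h) = (a g).comp (a h)} := by
    refine IsClosed.inter (isClosed_eq (continuous_apply 1) continuous_const) ?_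
    show IsClosed {a : G → C(K, K) | ∀ g h : G, a (g * h) = (a g).comp (a h)}
    simp only [ofPred_forall]
    exact isClosed_iInter fun g => isClosed_iInter fun h => isClosed_eq (continuous_apply _)
      (Continuous.compCM (continuous_apply g) (continuous_apply h))
  have : TopologicalSpace.IsCompletelyMetrizableSpace Act :=
    hc.isClosedEmbedding_subtypeVal.IsCompletelyMetrizableSpace
  infer_instance

lemma patch (a : Act) (d : K → D) (k : K) (hk : (d k).2.2.2 = true)
    (hT : ∀ k, RT (d k) (d (a.1 T k))) (hU : ∀ k, RU (d k) (d (a.1 U k))) (w : ℕ → Bool) (N : ℕ) :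
    ∃ z : K, ∀ t ≤ N, ∀ i < N, (d (a.1 (T ^ i * U ^ t) z)).1 = w i := by
  have hm : ∀ g h z, a.1 (g * h) z = a.1 g (a.1 h z) := fun g h z => by rw [a.2.2]; rfl
  have e1 : ∀ i j : ℕ, a.1 (T ^ (i + 1) * U ^ j) k = a.1 T (a.1 (T ^ i * U ^ j) k) := fun i j => by
    rw [← hm, pow_succ', mul_assoc]
  have e2 : ∀ i j : ℕ, a.1 (T ^ i * U ^ (j + 1)) k = a.1 U (a.1 (T ^ i * U ^ j) k) := fun i j => by
    rw [← hm, pow_succ', mul_left_comm]
  have s1 : ∀ j : ℕ, (d (a.1 (T ^ 0 * U ^ j) k)).2.2.2 = true := by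
    intro j
    induction j with
    | zero => simpa [a.2.1] using hk
    | succ j ih => rw [e2]; exact ((hU _).1 ih).1
  have s2 : ∀ j i : ℕ, (d (a.1 (T ^ i * U ^ j) k)).2.2.1 = true := by
    intro j i
    induction i with
    | zero => exact ((hU _).1 (s1 j)).2.2
    | succ i ih => rw [e1]; exact (hT _ ih).1
  obtain ⟨j, L, h⟩ := count (fun j i => (d (a.1 (T ^ i * U ^ j) k)).1)
    (fun j i => (d (a.1 (T ^ i * U ^ j) k)).2.1) (fun j => ((hU _).1 (s1 j)).2.1)
    (fun j i => by simp only [e1]; exact (hT _ (s2 j i)).2)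
    (fun j i => by simp only [e2]; exact ((hU _).2 (s2 j i)).2) w N N
  refine ⟨a.1 (T ^ L * U ^ j) k, fun t ht i hi => ?_⟩
  rw [← h t ht i hi, ← hm]
  congr 3
  rw [pow_add, pow_add]
  simp only [mul_comm, mul_left_comm, mul_assoc]

def bad (a : Act) (b : K → Bool) (n : ℕ) : Set K :=
  {k | b (a.1 U k) ≠ b k} ∪ {k | b (a.1 (T ^ (n + 1)) k) = b k} ∪
    ⋃ i ∈ Finset.range (n + 1), ⋃ j ∈ (Finset.range (n + 1)).erase i,
      (a.1 (T ^ i) ⁻¹' {k | b (a.1 T k) ≠ b k}) ∩ (a.1 (T ^ j) ⁻¹' {k | b (a.1 T k) ≠ b k})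

lemma clop (a : Act) {b : K → Bool} (hb : Continuous b) (g : G) (R : Bool → Bool → Prop) :
    IsClopen {k | R (b (a.1 g k)) (b k)} :=
  (isClopen_discrete {z : Bool × Bool | R z.1 z.2}).preimage
    ((hb.comp (a.1 g).continuous).prodMk hb)

lemma clop_bad (a : Act) {b : K → Bool} (hb : Continuous b) (n : ℕ) : IsClopen (bad a b n) :=
  ((clop a hb U (· ≠ ·)).union (clop a hb _ (· = ·))).union
    (isClopen_biUnion_finset fun _ _ => isClopen_biUnion_finset fun _ _ =>
      ((clop a hb T (· ≠ ·)).preimage (a.1 _).continuous).inter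
        ((clop a hb T (· ≠ ·)).preimage (a.1 _).continuous))

lemma avoid (a : Act) (b : K → Bool)
    (h : ∀ (w : ℕ → Bool) (N : ℕ), ∃ z : K, ∀ t ≤ N, ∀ i < N, b (a.1 (T ^ i * U ^ t) z) = w i)
    (n N : ℕ) : ∃ z, ∀ g ∈ box N, a.1 g z ∉ bad a b n := by
  have hm : ∀ g h z, a.1 (g * h) z = a.1 g (a.1 h z) := fun g h z => by rw [a.2.2]; rfl
  obtain ⟨z, hz⟩ := h (fun i => decide (i / (n + 1) % 2 = 1)) (N + n + 3)
  refine ⟨z, fun g hg => ?_⟩
  rw [mem_box] at hg
  obtain ⟨p, q, hp, hq, rfl⟩ : ∃ p q : ℕ, p ≤ N ∧ q ≤ N ∧ g = T ^ p * U ^ q := by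
    refine ⟨g.toAdd.1.toNat, g.toAdd.2.toNat, by omega, by omega, Multiplicative.toAdd.injective ?_⟩
    ext <;> simp <;> omega
  have e0 := hz q (by omega) p (by omega)
  have e1 : ∀ i ≤ n + 1, b (a.1 (T ^ i) (a.1 (T ^ p * U ^ q) z)) =
      decide ((p + i) / (n + 1) % 2 = 1) := fun i hi => by
    rw [← hm, ← mul_assoc, ← pow_add, add_comm i p]; exact hz q (by omega) _ (by omega)
  have e2 : ∀ i ≤ n, a.1 (T ^ p * U ^ q) z ∈ a.1 (T ^ i) ⁻¹' {k | b (a.1 T k) ≠ b k} →
      n + 1 ∣ p + i + 1 := by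
    intro i hi h
    simp only [mem_preimage, mem_ofPred_eq] at h
    rw [← hm, ← pow_succ', e1 _ (by omega), e1 _ (by omega), ← add_assoc, Nat.succ_div] at h
    by_contra hc
    simp [hc] at h
  rintro ((h | h) | h)
  · apply h
    rw [← hm, mul_left_comm, ← pow_succ', e0]; exact hz _ (by omega) _ (by omega)
  · simp only [mem_ofPred_eq] at h
    rw [e1 _ le_rfl, e0, Nat.add_div_right _ (by omega), decide_eq_decide] at h
    omega
  · simp only [mem_iUnion, Finset.mem_erase, Finset.mem_range] at h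
    obtain ⟨i, hi, j, ⟨hij, hj⟩, h1, h2⟩ := h
    have d1 := e2 i (by omega) h1
    have d2 := e2 j (by omega) h2
    rcases lt_or_gt_of_ne hij with l | l
    · have := Nat.le_of_dvd (by omega) (Nat.dvd_sub d1 d2); omega
    · have := Nat.le_of_dvd (by omega) (Nat.dvd_sub d2 d1); omega

lemma conseq (a : Act) {b : K → Bool} (hb : Continuous b) (n : ℕ) (ν : Measure K)
    [IsProbabilityMeasure ν] (hi : ∀ g, ν.map (a.1 g) = ν) (h0 : ν (bad a b n) = 0) :
    ν {k | b k = true} = ν {k | b k = true}ᶜ ∧ ν {k | b (a.1 U k) ≠ b k} = 0 ∧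
      ν {k | b (a.1 T k) ≠ b k} ≤ ((n + 1 : ℕ) : ENNReal)⁻¹ := by
  have hp : ∀ g, MeasurePreserving (a.1 g) ν ν := fun g => ⟨(a.1 g).continuous.measurable, hi g⟩
  have m1 : MeasurableSet {k | b k = true} := (clop a hb 1 fun _ x => x = true).isOpen.measurableSet
  have m2 := (clop a hb T (· ≠ ·)).isOpen.measurableSet
  refine ⟨?_, measure_mono_null (fun k hk => Or.inl (Or.inl hk)) h0, ?_⟩
  · rw [← (hp (T ^ (n + 1))).measure_preimage m1.nullMeasurableSet]
    refine measure_congr ?_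
    filter_upwards [measure_eq_zero_iff_ae_notMem.1 h0] with k hk
    have : b (a.1 (T ^ (n + 1)) k) ≠ b k := fun h => hk (Or.inl (Or.inr h))
    show (b (a.1 (T ^ (n + 1)) k) = true) = ¬ b k = true
    revert this
    cases b (a.1 (T ^ (n + 1)) k) <;> cases b k <;> simp
  · have := measure_biUnion_finset₀ (μ := ν) (s := Finset.range (n + 1))
      (f := fun i => a.1 (T ^ i) ⁻¹' {k | b (a.1 T k) ≠ b k})
      (fun i hi j hj hij => measure_mono_null (fun k hk => Or.inr (by
        simp only [mem_iUnion]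
        exact ⟨i, hi, j, Finset.mem_erase.2 ⟨hij.symm, hj⟩, hk⟩)) h0)
      (fun i _ => ((a.1 _).continuous.measurable m2).nullMeasurableSet)
    simp only [(hp _).measure_preimage m2.nullMeasurableSet, Finset.sum_const, Finset.card_range,
      nsmul_eq_mul] at this
    rw [ENNReal.le_inv_iff_mul_le, mul_comm, ← this]
    exact prob_le_one

lemma main (a : Act) {b : K → Bool} (hb : Continuous b)
    (h : ∀ (w : ℕ → Bool) (N : ℕ), ∃ z : K, ∀ t ≤ N, ∀ i < N, b (a.1 (T ^ i * U ^ t) z) = w i) :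
    ¬ IsClosed {ν : {μ : ProbabilityMeasure K // ∀ g : G, (μ : Measure K).map (a.1 g) = μ} |
      ∀ s : Set K, MeasurableSet s → (∀ g : G, a.1 g ⁻¹' s = s) →
        (ν.1 : Measure K) s = 0 ∨ (ν.1 : Measure K) s = 1} := by
  intro hc
  have hm : ∀ g h z, a.1 (g * h) z = a.1 g (a.1 h z) := fun g h z => by rw [a.2.2]; rfl
  have : CompactSpace {μ : ProbabilityMeasure K // ∀ g : G, (μ : Measure K).map (a.1 g) = μ} :=
    isCompact_iff_compactSpace.1 (closed_inv a.1).isCompact
  have c1 : IsClopen {k | b k = true} := clop a hb 1 fun _ x => x = true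
  let C : ℕ → Set {μ : ProbabilityMeasure K // ∀ g : G, (μ : Measure K).map (a.1 g) = μ} :=
    fun n => {ν | (∀ s : Set K, MeasurableSet s → (∀ g : G, a.1 g ⁻¹' s = s) →
        (ν.1 : Measure K) s = 0 ∨ (ν.1 : Measure K) s = 1) ∧
      (ν.1 : Measure K) {k | b k = true} = (ν.1 : Measure K) {k | b k = true}ᶜ ∧
      (ν.1 : Measure K) {k | b (a.1 U k) ≠ b k} = 0 ∧
      (ν.1 : Measure K) {k | b (a.1 T k) ≠ b k} ≤ ((n + 1 : ℕ) : ENNReal)⁻¹}
  have hC : ∀ n, IsClosed (C n) := fun n => hc.inter (IsClosed.inter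
    (isClosed_eq ((cont_meas c1).comp continuous_subtype_val)
      ((cont_meas c1.compl).comp continuous_subtype_val)) (IsClosed.inter
    (isClosed_eq ((cont_meas (clop a hb U (· ≠ ·))).comp continuous_subtype_val) continuous_const)
    (isClosed_le ((cont_meas (clop a hb T (· ≠ ·))).comp continuous_subtype_val) continuous_const)))
  obtain ⟨ν, hν⟩ := IsCompact.nonempty_iInter_of_sequence_nonempty_isCompact_isClosed C
    (fun n ν h => ⟨h.1, h.2.1, h.2.2.1, h.2.2.2.trans (ENNReal.inv_le_inv.2 (by simp))⟩)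
    (fun n => by
      choose z hz using avoid a b h n
      obtain ⟨ν, h1, h2, h3⟩ := erg a.1 (clop_bad a hb n)
        (kb a.1 a.2.2 box box_ne folner (clop_bad a hb n) z hz)
      exact ⟨⟨ν, h1⟩, h3, conseq a hb n ν h1 h2⟩) (hC 0).isCompact hC
  rw [mem_iInter] at hν
  obtain ⟨h1, h2, h3, -⟩ := hν 0
  have h4 : (ν.1 : Measure K) {k | b (a.1 T k) ≠ b k} = 0 := by
    refine le_antisymm (ge_of_tendsto' (ENNReal.tendsto_inv_nat_nhds_zero.comp
      (tendsto_add_atTop_nat 1)) fun n => (hν n).2.2.2) zero_le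
  have hp : ∀ g, MeasurePreserving (a.1 g) ν.1 ν.1 :=
    fun g => ⟨(a.1 g).continuous.measurable, ν.2 g⟩
  let H : Subgroup G :=
    { carrier := {g | ∀ᵐ k ∂(ν.1 : Measure K), b (a.1 g k) = b k}
      one_mem' := by
        show ∀ᵐ k ∂(ν.1 : Measure K), b (a.1 1 k) = b k
        exact Eventually.of_forall fun k => by rw [a.2.1]; rfl
      mul_mem' := fun {g h} hg hh => by
        show ∀ᵐ k ∂(ν.1 : Measure K), b (a.1 (g * h) k) = b k
        filter_upwards [(hp h).quasiMeasurePreserving.ae hg, hh] with k k1 k2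
        rw [hm, k1, k2]
      inv_mem' := fun {g} hg => by
        show ∀ᵐ k ∂(ν.1 : Measure K), b (a.1 g⁻¹ k) = b k
        filter_upwards [(hp g⁻¹).quasiMeasurePreserving.ae hg] with k k1
        rw [← k1, ← hm, mul_inv_cancel, a.2.1]; rfl }
  have h5 : ∀ g, g ∈ H := by
    intro g
    have : g = T ^ g.toAdd.1 * U ^ g.toAdd.2 := Multiplicative.toAdd.injective (by ext <;> simp)
    rw [this]
    exact H.mul_mem (H.zpow_mem h4 _) (H.zpow_mem h3 _)
  have h6 : (ν.1 : Measure K) (⋂ g, a.1 g ⁻¹' {k | b k = true}) =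
      (ν.1 : Measure K) {k | b k = true} := by
    refine measure_congr ?_
    filter_upwards [ae_all_iff.2 h5] with k hk
    show (k ∈ ⋂ g, a.1 g ⁻¹' {k | b k = true}) = (b k = true)
    simp [hk]
  have h7 := h1 (⋂ g, a.1 g ⁻¹' {k | b k = true})
    (MeasurableSet.iInter fun g => (a.1 g).continuous.measurable c1.isOpen.measurableSet) (by
      intro g
      ext k
      simp only [mem_preimage, mem_iInter, ← hm]
      exact ⟨fun h x => by simpa using h (x * g⁻¹), fun h x => h _⟩)
  rw [h6] at h7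
  have h8 := measure_add_measure_compl (μ := (ν.1 : Measure K)) c1.isOpen.measurableSet
  rw [← h2, measure_univ] at h8
  rcases h7 with h7 | h7 <;> rw [h7] at h8 <;> norm_num at h8

end Pool.Agent.H.MP_42c941_an
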